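import Pool.Agent.Helper44.GN.Defs

/-! MP_d210aa_gt, project GN, module LPT. -/

open Finset MeasureTheory Filter Topology Matrix
open scoped ENNReal ContDiff

namespace Pool.Agent.Helper44.GN

open Pool.Agent.Helper44.GF

private lemma lpt_int (h2 : ST_YD) (α a δ v : ℝ) (ha : 199 / 200 ≤ α) (ha1 : α < 1) (ha0 : 0 < a)
    (hδ : 0 < δ) (hδ1 : δ ≤ 1) :
    (∫ z in δ..1, z ^ 3 * Real.exp (-(v * yy α a z))) =
      (∫ z in δ..1, z ^ 3) - ∫ z in δ..1, z ^ 3 * (1 - Real.exp (-(v * yy α a z))) := by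
  have hc : ContinuousOn (fun z => z ^ 3 * Real.exp (-(v * yy α a z))) (Set.uIcc δ 1) := by
    rw [Set.uIcc_of_le hδ1]
    intro z hz
    have hz0 : 0 < z := lt_of_lt_of_le hδ hz.1
    have h := (h2 α a ha ha1 ha0 z hz0).2.2.2.1
    have h3 : ContinuousAt (yy α a) z := h.continuousAt
    refine ContinuousAt.continuousWithinAt ?_
    refine (continuousAt_id.pow 3).mul ?_
    exact (Real.continuous_exp.continuousAt).comp ((continuousAt_const.mul h3).neg)
  have hi1 : IntervalIntegrable (fun z : ℝ => z ^ 3 * Real.exp (-(v * yy α a z))) volume δ 1 :=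
    hc.intervalIntegrable
  have hi2 : IntervalIntegrable (fun z : ℝ => z ^ 3) volume δ 1 :=
    (continuous_pow 3).intervalIntegrable _ _
  have e : (∫ z in δ..1, z ^ 3 * (1 - Real.exp (-(v * yy α a z)))) =
      (∫ z in δ..1, z ^ 3) - ∫ z in δ..1, z ^ 3 * Real.exp (-(v * yy α a z)) := by
    rw [← intervalIntegral.integral_sub hi2 hi1]
    refine intervalIntegral.integral_congr ?_
    intro z _
    simp only
    ring
  rw [e]
  ring

private lemma lpt_norm (δ : ℝ) : (∫ z in δ..1, z ^ 3) = (1 - δ ^ 4) / 4 := by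
  rw [integral_pow]
  norm_num

theorem st_LPT (h1 : ST_LP1) (h2 : ST_YD) : ST_LPT := by
  intro α a ha ha1 ha0 u hu
  have hδ : Tendsto (fun k : ℕ => (1 : ℝ) / ((k : ℝ) + 2)) atTop (𝓝 0) := by
    have h := tendsto_one_div_add_atTop_nhds_zero_nat (𝕜 := ℝ)
    have h3 := h.comp (tendsto_add_atTop_nat 1)
    refine h3.congr ?_
    intro k
    simp only [Function.comp_apply]
    push_cast
    congr 1
    ring
  have hI : Tendsto (fun k : ℕ => ∫ z in (1 / ((k : ℝ) + 2))..1, z ^ 3) atTop (𝓝 (1 / 4)) := by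
    have h : Tendsto (fun k : ℕ => (1 - ((1 : ℝ) / ((k : ℝ) + 2)) ^ 4) / 4) atTop
        (𝓝 ((1 - 0 ^ 4) / 4)) := ((hδ.pow 4).const_sub 1).div_const 4
    have e : ((1 : ℝ) - 0 ^ 4) / 4 = 1 / 4 := by norm_num
    rw [e] at h
    refine h.congr ?_
    intro k
    rw [lpt_norm]
  have hL := h1 α a ha ha1 ha0 u hu
  set g : ℕ → ℝ := fun n => (∫ z in (1 / (((n - 1 : ℕ) : ℝ) + 2))..1,
      z ^ 3 * Real.exp (-(cs α a (n - 1) * u * yy α a z))) /
      (∫ z in (1 / (((n - 1 : ℕ) : ℝ) + 2))..1, z ^ 3) - 1 with hg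
  have hkey : Tendsto (fun n : ℕ => (n : ℝ) * g n) atTop (𝓝 (-(u ^ α))) := by
    rw [← tendsto_add_atTop_iff_nat 1]
    have h := (hL.div hI (by norm_num)).neg
    have e : -(u ^ α / 4 / (1 / 4)) = -(u ^ α) := by ring
    rw [e] at h
    refine h.congr ?_
    intro k
    have hd0 : (0 : ℝ) < 1 / ((k : ℝ) + 2) := by positivity
    have hd1 : (1 : ℝ) / ((k : ℝ) + 2) ≤ 1 := by
      rw [div_le_one (by positivity)]
      have : (0 : ℝ) ≤ k := by positivity
      linarith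
    have hd2 : (1 : ℝ) / ((k : ℝ) + 2) < 1 := by
      rw [div_lt_one (by positivity)]
      have : (0 : ℝ) ≤ k := by positivity
      linarith
    have hne : (∫ z in (1 / ((k : ℝ) + 2))..1, z ^ 3) ≠ 0 := by
      rw [lpt_norm]
      have : (1 / ((k : ℝ) + 2)) ^ 4 < 1 := pow_lt_one₀ hd0.le hd2 (by norm_num)
      have h4 : 0 < (1 - (1 / ((k : ℝ) + 2)) ^ 4) / 4 := by linarith
      exact h4.ne'
    simp only [hg, Nat.add_sub_cancel]
    rw [lpt_int h2 α a (1 / ((k : ℝ) + 2)) (cs α a k * u) ha ha1 ha0 hd0 hd1]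
    push_cast
    simp only [Pi.div_apply]
    field_simp
    ring
  have hfin := (Real.tendsto_nat_mul_log_one_add_of_tendsto hkey)
  rw [← tendsto_add_atTop_iff_nat 1] at hfin
  have hfin2 := hfin.neg
  rw [neg_neg] at hfin2
  refine hfin2.congr ?_
  intro k
  unfold lamf
  simp only [hg, Nat.add_sub_cancel]
  congr 3
  ring

end Pool.Agent.Helper44.GN
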